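import Pool.Agent.helper37.BT.LH

/-! # Project EB, module CB: main subsolution -/

set_option autoImplicit false

open MeasureTheory ProbabilityTheory Filter Topology
open scoped ENNReal NNReal

namespace Pool.Agent.helper32.EB

/-! ### affine functions of the logarithm -/

theorem CB_lin {ν : Measure ℂ} {h : ℝ} (hν : RotStep ν h) (hh : 0 < h) (w : ℂ)
    (hw : 2 * h ≤ ‖w‖) (α β : ℝ) :
    Integrable (fun y => α + β * Real.log ‖w + y‖) ν ∧
      ∫ y, (α + β * Real.log ‖w + y‖) ∂ν = α + β * Real.log ‖w‖ := by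
  have := hν.prob
  obtain ⟨h1, h2⟩ := log_harm hν hh w hw
  have h3 : Integrable (fun y => β * Real.log ‖w + y‖) ν := h1.const_mul β
  refine ⟨(integrable_const α).add h3, ?_⟩
  rw [integral_add (integrable_const α) h3, integral_const_mul, h2]
  simp

theorem CB_low {ν : Measure ℂ} {h : ℝ} (hν : RotStep ν h) (hh : 0 < h) (w : ℂ)
    (hw : 2 * h ≤ ‖w‖) (α β : ℝ) :
    ENNReal.ofReal (α + β * Real.log ‖w‖) ≤
      ∫⁻ y, ENNReal.ofReal (α + β * Real.log ‖w + y‖) ∂ν := by
  obtain ⟨h1, h2⟩ := CB_lin hν hh w hw α β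
  rw [← h2]
  have h3 : Integrable (fun y => max (α + β * Real.log ‖w + y‖) 0) ν := h1.pos_part
  have h4 : ∫ y, (α + β * Real.log ‖w + y‖) ∂ν ≤ ∫ y, max (α + β * Real.log ‖w + y‖) 0 ∂ν :=
    integral_mono h1 h3 fun y => le_max_left _ _
  refine (ENNReal.ofReal_le_ofReal h4).trans (le_of_eq ?_)
  rw [ofReal_integral_eq_lintegral_ofReal h3 (Eventually.of_forall fun y => le_max_right _ _)]
  refine lintegral_congr fun y => ?_
  rw [ENNReal.ofReal_max, ENNReal.ofReal_zero]
  exact max_eq_left bot_le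

theorem CB_up {ν : Measure ℂ} {h : ℝ} (hν : RotStep ν h) (hh : 0 < h) (w : ℂ)
    (hw : 2 * h ≤ ‖w‖) (α β : ℝ) (hpos : ∀ᵐ y ∂ν, 0 ≤ α + β * Real.log ‖w + y‖) :
    ∫⁻ y, ENNReal.ofReal (α + β * Real.log ‖w + y‖) ∂ν = ENNReal.ofReal (α + β * Real.log ‖w‖) := by
  obtain ⟨h1, h2⟩ := CB_lin hν hh w hw α β
  rw [← h2, ofReal_integral_eq_lintegral_ofReal h1 hpos]

/-! ### geometry -/

theorem CB_ρpos {G : Geo} (hG : G.OK) : 0 < G.ρ := by
  have h1 := hG.hpos
  have h2 := hG.hρ
  linarith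

theorem CB_Rpos {G : Geo} (hG : G.OK) : ∀ k ≤ G.K, G.ρ ≤ G.R k := by
  have h1 := CB_ρpos hG
  have key : ∀ i : ℕ, i ≤ G.K → G.ρ ≤ G.R (G.K - i) := by
    intro i
    induction i with
    | zero => intro _; rw [Nat.sub_zero, hG.RK]
    | succ i ih =>
      intro hi
      have h2 := ih (by omega)
      have h3 := hG.dec (G.K - (i + 1)) (by omega)
      have h4 : G.K - (i + 1) + 1 = G.K - i := by omega
      rw [h4] at h3
      linarith
  intro k hk
  have := key (G.K - k) (by omega)
  rwa [Nat.sub_sub_self hk] at this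

/-- the radii decrease fast -/
theorem CB_R {G : Geo} (hG : G.OK) : ∀ k, 1 ≤ k → k ≤ G.K → 4 * G.R k ≤ G.r := by
  intro k hk
  induction k, hk using Nat.le_induction with
  | base =>
    intro hk
    have h1 := hG.dec 0 (by omega)
    have h2 := hG.R0
    simp only [zero_add] at h1
    linarith
  | succ k hk ih =>
    intro hk'
    have h1 := ih (by omega)
    have h2 := hG.dec k (by omega)
    have h3 := CB_Rpos hG (k + 1) hk'
    have h4 := CB_ρpos hG
    linarith

theorem CB_rρ {G : Geo} (hG : G.OK) : 8 * G.ρ ≤ G.r ∧ 0 < G.r := by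
  have h0 := hG.K6
  have h1 := CB_R hG (G.K - 1) (by omega) (by omega)
  have h2 := hG.dec (G.K - 1) (by omega)
  have h3 : G.K - 1 + 1 = G.K := by omega
  rw [h3, hG.RK] at h2
  have h4 := CB_ρpos hG
  constructor <;> linarith

theorem CB_mem (G : Geo) (z : ℂ) (s : HS G.J) (j : Fin G.J) :
    j ∈ (updH G z s).U ↔ j ∈ s.U ∧ G.ρ < ‖z - G.x j‖ := by
  unfold updH upd
  simp only [Finset.mem_filter]

theorem CB_norm_le {G : Geo} (hG : G.OK) (j : Fin G.J) (z : ℂ) :
    ‖z - G.x j‖ ≤ ‖z‖ + 3 / 8 * G.r := by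
  have h1 := norm_sub_le z (G.x j)
  have h2 := hG.xs j
  linarith

theorem CB_le_norm {G : Geo} (hG : G.OK) (j : Fin G.J) (z : ℂ) :
    ‖z‖ - 3 / 8 * G.r ≤ ‖z - G.x j‖ := by
  have h1 := norm_sub_norm_le z (G.x j)
  have h2 := hG.xs j
  linarith

/-- the subsolution -/
noncomputable def CB_f (G : Geo) (w : ℂ) : ℝ :=
  Real.log (‖w‖ / G.ρ) / Real.log ((G.R' + G.r) / G.ρ)

theorem CB_cmx {G : Geo} (hG : G.OK) :
    0 < Real.log ((G.R' + G.r) / G.ρ) ∧
    cmx G = Real.log (G.r / (2 * G.ρ)) / Real.log ((G.R' + G.r) / G.ρ) ∧ 0 ≤ cmx G ∧ cmx G ≤ 1 := by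
  have h1 := CB_ρpos hG
  obtain ⟨h2, h3⟩ := CB_rρ hG
  have h4 := hG.big
  have hA : 0 < Real.log ((G.R' + G.r) / G.ρ) := by
    apply Real.log_pos
    rw [lt_div_iff₀ h1]
    linarith
  have e1 : cmx G = Real.log (G.r / (2 * G.ρ)) / Real.log ((G.R' + G.r) / G.ρ) := by
    have h5 : (0 : ℝ) < G.R' + G.r := by linarith
    unfold cmx
    rw [eq_div_iff hA.ne', sub_mul, one_mul, div_mul_cancel₀ _ hA.ne']
    rw [← Real.log_div (by positivity) (by positivity)]
    congr 1
    field_simp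
  have h6 : 0 ≤ cmx G := by
    rw [e1]
    refine div_nonneg (Real.log_nonneg ?_) hA.le
    rw [le_div_iff₀ (by linarith)]
    linarith
  have h7 : cmx G ≤ 1 := by
    rw [e1, div_le_one hA]
    apply Real.log_le_log (by positivity)
    rw [div_le_div_iff₀ (by linarith) h1]
    nlinarith
  exact ⟨hA, e1, h6, h7⟩

theorem CB_f_eq {G : Geo} (hG : G.OK) (c : ℝ) {w : ℂ} (hw : w ≠ 0) :
    CB_f G w * c = -(Real.log G.ρ / Real.log ((G.R' + G.r) / G.ρ) * c) +
      (c / Real.log ((G.R' + G.r) / G.ρ)) * Real.log ‖w‖ := by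
  have h1 := CB_ρpos hG
  unfold CB_f
  rw [Real.log_div (norm_ne_zero_iff.2 hw) h1.ne']
  ring

theorem CB_f_nonpos {G : Geo} (hG : G.OK) {w : ℂ} (hw : ‖w‖ ≤ G.ρ) : CB_f G w ≤ 0 := by
  have h1 := CB_ρpos hG
  refine div_nonpos_of_nonpos_of_nonneg (Real.log_nonpos (by positivity) ?_) (CB_cmx hG).1.le
  rw [div_le_one h1]
  exact hw

open Classical in
/-- main subsolution -/
theorem sub_main (G : Geo) (hG : G.OK) {ν : Measure ℂ} (hν : RotStep ν G.h) (j : Fin G.J) :
    ∃ Qa, SubC G ν Qa (fun m s => if j ∈ s.U then ENNReal.ofReal (cmx G ^ m) else 0) 1 := by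
  have hρ := CB_ρpos hG
  have hh := hG.hpos
  have hhρ := hG.hρ
  obtain ⟨hrρ, hr⟩ := CB_rρ hG
  have hbig := hG.big
  obtain ⟨hA, hcm, hc0, hc1⟩ := CB_cmx hG
  have hcpow : ∀ m : ℕ, 0 ≤ cmx G ^ m := fun m => pow_nonneg hc0 m
  have hf_le : ∀ w : ℂ, ‖w‖ ≤ G.R' + G.r → CB_f G w ≤ 1 := by
    intro w hw
    unfold CB_f
    rw [div_le_one hA]
    rcases eq_or_lt_of_le (norm_nonneg w) with h0 | h0
    · rw [← h0, zero_div, Real.log_zero]
      exact hA.le
    · exact Real.log_le_log (by positivity) (div_le_div_of_nonneg_right hw hρ.le)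
  refine ⟨fun m z s => if j ∈ s.U then ENNReal.ofReal (CB_f G (z - G.x j) * cmx G ^ m) else 0,
    ?_, ?_, ?_, ?_, ?_⟩
  · intro m s
    by_cases hj : j ∈ s.U
    · have h1 : (fun z => if j ∈ (updH G z s).U then
          ENNReal.ofReal (CB_f G (z - G.x j) * cmx G ^ m) else 0) =
          fun z => if G.ρ < ‖z - G.x j‖ then
            ENNReal.ofReal (CB_f G (z - G.x j) * cmx G ^ m) else 0 := by
        funext z
        simp only [CB_mem, hj, true_and]
      rw [h1]
      refine Measurable.ite (measurableSet_lt measurable_const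
        ((measurable_id.sub measurable_const).norm)) ?_ measurable_const
      unfold CB_f
      exact ((((measurable_id.sub measurable_const).norm.div_const _).log.div_const _).mul_const
        _).ennreal_ofReal
    · have h1 : (fun z => if j ∈ (updH G z s).U then
          ENNReal.ofReal (CB_f G (z - G.x j) * cmx G ^ m) else 0) = fun _ => 0 := by
        funext z
        simp only [CB_mem, hj, false_and, if_false]
      rw [h1]
      exact measurable_const
  · intro m z s hz hv
    by_cases hj : j ∈ s.U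
    · rw [if_pos hj]
      have hw : G.ρ < ‖z - G.x j‖ := hv.1 j hj
      have hw2 : 2 * G.h ≤ ‖z - G.x j‖ := by linarith
      have hw0 : z - G.x j ≠ 0 := by
        intro h0
        rw [h0, norm_zero] at hw
        linarith
      rw [CB_f_eq hG (cmx G ^ m) hw0]
      refine (CB_low hν hh (z - G.x j) hw2 _ _).trans ?_
      refine lintegral_mono_ae ?_
      filter_upwards [hν.bdd] with y hy
      have e1 : z + y - G.x j = z - G.x j + y := by ring
      have h0 : z - G.x j + y ≠ 0 := by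
        intro h0
        have h3 := norm_sub_le_norm_add (z - G.x j) y
        rw [h0, norm_zero] at h3
        linarith
      rw [← CB_f_eq hG (cmx G ^ m) h0]
      by_cases hm : j ∈ (updH G (z + y) s).U
      · rw [if_pos hm, e1]
      · rw [if_neg hm]
        rw [CB_mem] at hm
        have hm' : ‖z - G.x j + y‖ ≤ G.ρ := by
          rw [← e1]
          by_contra h2
          exact hm ⟨hj, not_le.1 h2⟩
        rw [ENNReal.ofReal_eq_zero.2]
        exact mul_nonpos_of_nonpos_of_nonneg (CB_f_nonpos hG hm') (hcpow m)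
    · rw [if_neg hj]
      exact bot_le
  · intro m z s hz1 hz2
    by_cases hm : j ∈ (updH G z s).U
    · rw [if_pos hm, if_pos hm]
      apply ENNReal.ofReal_le_ofReal
      have h1 := CB_norm_le hG j z
      have h2 := hf_le (z - G.x j) (by linarith)
      calc CB_f G (z - G.x j) * cmx G ^ m ≤ 1 * cmx G ^ m :=
            mul_le_mul_of_nonneg_right h2 (hcpow m)
        _ = _ := one_mul _
    · rw [if_neg hm, if_neg hm]
  · intro m z s _ hz1 hz2
    by_cases hj : j ∈ s.U
    · have h1 := CB_le_norm hG j z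
      have h2 : G.r / 2 ≤ ‖z - G.x j‖ := by linarith
      have hm : j ∈ (updH G z s).U := by
        rw [CB_mem]
        exact ⟨hj, by linarith⟩
      simp only [if_pos hj, if_pos hm]
      apply ENNReal.ofReal_le_ofReal
      rw [pow_succ, mul_comm]
      refine mul_le_mul_of_nonneg_right ?_ (hcpow m)
      rw [hcm]
      unfold CB_f
      refine div_le_div_of_nonneg_right (Real.log_le_log (by positivity) ?_) hA.le
      rw [div_le_div_iff₀ (by linarith) hρ]
      nlinarith
    · simp only [if_neg hj]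
      exact bot_le
  · intro m z s hz hv
    by_cases hj : j ∈ s.U
    · rw [if_pos hj, ← ENNReal.ofReal_one]
      apply ENNReal.ofReal_le_ofReal
      have h1 := CB_norm_le hG j z
      have h2 := hf_le (z - G.x j) (by linarith)
      calc CB_f G (z - G.x j) * cmx G ^ m ≤ 1 * cmx G ^ m :=
            mul_le_mul_of_nonneg_right h2 (hcpow m)
        _ ≤ 1 := by rw [one_mul]; exact pow_le_one₀ hc0 hc1
    · rw [if_neg hj]
      exact bot_le

end Pool.Agent.helper32.EB
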