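import Pool.Agent.helper71.BT.CB

/-! # Project EB, module CC: numbers of crossings -/

set_option autoImplicit false

open MeasureTheory ProbabilityTheory Filter Topology
open scoped ENNReal NNReal

namespace Pool.Agent.helper32.EB

theorem CC_Rle {G : Geo} (hG : G.OK) (k : ℕ) (hk : k ≤ G.K) : G.R k ≤ 2 * G.r := by
  rcases Nat.eq_zero_or_pos k with rfl | h0
  · exact hG.R0.le
  · have h1 := CB_R hG k h0 hk
    have h2 := (CB_rρ hG).2
    have h3 := CB_Rpos hG k hk
    have h4 := CB_ρpos hG
    linarith

/-- elementary estimates for the two affine functions of the logarithm -/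
theorem CC_num {G : Geo} (hG : G.OK) (k : ℕ) (hk : 1 ≤ k) (hkK : k + 1 ≤ G.K) (u : ℝ) (hu : 0 < u)
    (hu1 : u * tt G k < tt G (k - 1)) :
    ∃ αo αi b : ℝ, 0 ≤ c1 G k u ∧ 0 ≤ b ∧ 0 ≤ 1 - c1 G k u * sr G ∧
      (∀ v, G.R k - G.h < v → v ≤ G.R k →
        u * (αi + b * Real.log v) ≤ αo + c1 G k u * Real.log v) ∧
      (∀ v, G.R (k - 1) ≤ v → v < G.R (k - 1) + G.h →
        αo + c1 G k u * Real.log v ≤ αi + b * Real.log v) ∧
      (∀ v, G.ρ - G.h < v → 0 ≤ αi + b * Real.log v) ∧
      (∀ v, G.R k - G.h < v → 0 ≤ αo + c1 G k u * Real.log v) ∧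
      (∀ v, G.R' - G.r ≤ v → 1 ≤ αo + c1 G k u * Real.log v) ∧
      (∀ v, 0 < v → v ≤ 2 * G.r → αo + c1 G k u * Real.log v ≤ 1 - c1 G k u * sr G) := by
  have hh := hG.hpos
  have hhρ := hG.hρ
  have hρ := CB_ρpos hG
  obtain ⟨hrρ, hr⟩ := CB_rρ hG
  have hbig := hG.big
  have hRk := CB_Rpos hG k (by omega)
  have hRk1 := CB_Rpos hG (k - 1) (by omega)
  have hdec := hG.dec (k - 1) (by omega)
  rw [Nat.sub_add_cancel hk] at hdec
  have hRle := CC_Rle hG (k - 1) (by omega)
  have p1 : (0 : ℝ) < G.ρ - G.h := by linarith
  have p2 : (0 : ℝ) < G.R k - G.h := by linarith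
  have p3 : (0 : ℝ) < G.R' - G.r := by linarith
  have p4 : (0 : ℝ) < G.R (k - 1) + G.h := by linarith
  have p5 : (0 : ℝ) < G.R k := by linarith
  have p6 : (0 : ℝ) < G.R (k - 1) := by linarith
  have p7 : (0 : ℝ) < 2 * G.r := by linarith
  have e0 : tt G (k - 1) = Real.log (G.R (k - 1)) - Real.log (G.ρ - G.h) := by
    unfold tt; rw [Real.log_div p6.ne' p1.ne']
  have e1 : tt G k = Real.log (G.R k) - Real.log (G.ρ - G.h) := by
    unfold tt; rw [Real.log_div p5.ne' p1.ne']
  have e2 : s1 G k = Real.log (G.R' - G.r) - Real.log (G.R k - G.h) := by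
    unfold s1; rw [Real.log_div p3.ne' p2.ne']
  have e3 : s0 G k = Real.log (G.R' - G.r) - Real.log (G.R (k - 1) + G.h) := by
    unfold s0; rw [Real.log_div p3.ne' p4.ne']
  have e4 : sr G = Real.log (G.R' - G.r) - Real.log (2 * G.r) := by
    unfold sr; rw [Real.log_div p3.ne' p7.ne']
  have i1 : Real.log (G.ρ - G.h) < Real.log (G.R k) := Real.log_lt_log p1 (by linarith)
  have i2 : Real.log (G.R k - G.h) < Real.log (G.R (k - 1) + G.h) := Real.log_lt_log p2 (by linarith)
  have i3 : Real.log (G.R (k - 1) + G.h) < Real.log (G.R' - G.r) := Real.log_lt_log p4 (by linarith)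
  have i4 : Real.log (G.R k - G.h) ≤ Real.log (2 * G.r) := Real.log_le_log p2 (by linarith)
  have T1 : 0 < tt G k := by rw [e1]; linarith
  have T0 : 0 < tt G (k - 1) := lt_trans (mul_pos hu T1) hu1
  have S0 : 0 < s0 G k := by rw [e3]; linarith
  have S1 : s0 G k < s1 G k := by rw [e2, e3]; linarith
  have SR : sr G ≤ s1 G k := by rw [e2, e4]; linarith
  have hD : 0 < s1 G k * tt G (k - 1) - u * tt G k * s0 G k := by
    have q1 : u * tt G k * s0 G k ≤ tt G (k - 1) * s0 G k := mul_le_mul_of_nonneg_right hu1.le S0.le
    have q2 : tt G (k - 1) * s0 G k < tt G (k - 1) * s1 G k := mul_lt_mul_of_pos_left S1 T0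
    linarith [mul_comm (tt G (k - 1)) (s1 G k)]
  set D := s1 G k * tt G (k - 1) - u * tt G k * s0 G k with hDdef
  have hc : c1 G k u = (tt G (k - 1) - u * tt G k) / D := rfl
  have hcD : c1 G k u * D = tt G (k - 1) - u * tt G k := by rw [hc, div_mul_cancel₀ _ hD.ne']
  have hc0 : 0 ≤ c1 G k u := by rw [hc]; exact div_nonneg (by linarith) hD.le
  obtain ⟨b, hb⟩ : ∃ b, b = (s1 G k - s0 G k) / D := ⟨_, rfl⟩
  have hbD : b * D = s1 G k - s0 G k := by rw [hb, div_mul_cancel₀ _ hD.ne']
  have hb0 : 0 ≤ b := by rw [hb]; exact div_nonneg (by linarith) hD.le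
  have k1 : 1 - c1 G k u * s1 G k = u * b * tt G k := by
    have : (1 - c1 G k u * s1 G k) * D = (u * b * tt G k) * D := by
      have a1 : (1 - c1 G k u * s1 G k) * D = D - (c1 G k u * D) * s1 G k := by ring
      have a2 : (u * b * tt G k) * D = u * tt G k * (b * D) := by ring
      rw [a1, a2, hcD, hbD, hDdef]
      ring
    exact mul_right_cancel₀ hD.ne' this
  have k0 : 1 - c1 G k u * s0 G k = b * tt G (k - 1) := by
    have : (1 - c1 G k u * s0 G k) * D = (b * tt G (k - 1)) * D := by
      have a1 : (1 - c1 G k u * s0 G k) * D = D - (c1 G k u * D) * s0 G k := by ring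
      have a2 : (b * tt G (k - 1)) * D = tt G (k - 1) * (b * D) := by ring
      rw [a1, a2, hcD, hbD, hDdef]
      ring
    exact mul_right_cancel₀ hD.ne' this
  have k1' : 0 ≤ 1 - c1 G k u * s1 G k := by rw [k1]; positivity
  refine ⟨1 - c1 G k u * Real.log (G.R' - G.r), -(b * Real.log (G.ρ - G.h)), b, hc0, hb0, ?_, ?_, ?_,
    ?_, ?_, ?_, ?_⟩
  · have := mul_le_mul_of_nonneg_left SR hc0
    linarith
  · intro v hv1 hv2
    have hv0 : 0 < v := by linarith
    have a1 : Real.log v ≤ Real.log (G.R k) := Real.log_le_log hv0 hv2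
    have a2 : Real.log (G.R k - G.h) ≤ Real.log v := Real.log_le_log p2 hv1.le
    have a3 : b * Real.log v ≤ b * Real.log (G.R k) := mul_le_mul_of_nonneg_left a1 hb0
    have a4 : c1 G k u * Real.log (G.R k - G.h) ≤ c1 G k u * Real.log v :=
      mul_le_mul_of_nonneg_left a2 hc0
    have a5 : u * (-(b * Real.log (G.ρ - G.h)) + b * Real.log v) ≤ u * (b * tt G k) := by
      apply mul_le_mul_of_nonneg_left _ hu.le
      rw [e1]
      linarith
    have a6 : 1 - c1 G k u * s1 G k =
        1 - c1 G k u * Real.log (G.R' - G.r) + c1 G k u * Real.log (G.R k - G.h) := by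
      rw [e2]; ring
    linarith
  · intro v hv1 hv2
    have hv0 : 0 < v := by linarith
    have a1 : Real.log (G.R (k - 1)) ≤ Real.log v := Real.log_le_log p6 hv1
    have a2 : Real.log v ≤ Real.log (G.R (k - 1) + G.h) := Real.log_le_log hv0 hv2.le
    have a3 : b * Real.log (G.R (k - 1)) ≤ b * Real.log v := mul_le_mul_of_nonneg_left a1 hb0
    have a4 : c1 G k u * Real.log v ≤ c1 G k u * Real.log (G.R (k - 1) + G.h) :=
      mul_le_mul_of_nonneg_left a2 hc0
    have a5 : b * tt G (k - 1) = b * Real.log (G.R (k - 1)) - b * Real.log (G.ρ - G.h) := by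
      rw [e0]; ring
    have a6 : 1 - c1 G k u * s0 G k =
        1 - c1 G k u * Real.log (G.R' - G.r) + c1 G k u * Real.log (G.R (k - 1) + G.h) := by
      rw [e3]; ring
    linarith
  · intro v hv
    have a1 : Real.log (G.ρ - G.h) ≤ Real.log v := Real.log_le_log p1 hv.le
    have a3 : b * Real.log (G.ρ - G.h) ≤ b * Real.log v := mul_le_mul_of_nonneg_left a1 hb0
    linarith
  · intro v hv
    have a2 : Real.log (G.R k - G.h) ≤ Real.log v := Real.log_le_log p2 hv.le
    have a4 : c1 G k u * Real.log (G.R k - G.h) ≤ c1 G k u * Real.log v :=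
      mul_le_mul_of_nonneg_left a2 hc0
    have a6 : 1 - c1 G k u * s1 G k =
        1 - c1 G k u * Real.log (G.R' - G.r) + c1 G k u * Real.log (G.R k - G.h) := by
      rw [e2]; ring
    linarith
  · intro v hv
    have a2 : Real.log (G.R' - G.r) ≤ Real.log v := Real.log_le_log p3 hv
    have a4 := mul_le_mul_of_nonneg_left a2 hc0
    linarith
  · intro v hv0 hv
    have a2 : Real.log v ≤ Real.log (2 * G.r) := Real.log_le_log hv0 hv
    have a4 := mul_le_mul_of_nonneg_left a2 hc0
    rw [e4]
    linarith [mul_sub (c1 G k u) (Real.log (G.R' - G.r)) (Real.log (2 * G.r))]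

/-- the supersolution -/
noncomputable def CC_val (u αo c αi b g : ℝ) (cnt : ℕ) (st : Bool) (m : ℕ) (v : ℝ) : ℝ :=
  u ^ cnt * ((if st = true then αi + b * Real.log v else αo + c * Real.log v) * g ^ m)

theorem CC_val_meas (u αo c αi b g : ℝ) (cnt : ℕ) (st : Bool) (m : ℕ) (x : ℂ) :
    Measurable (fun z : ℂ => ENNReal.ofReal (CC_val u αo c αi b g cnt st m ‖z - x‖)) := by
  unfold CC_val
  cases st
  · simp only [Bool.false_eq_true, if_false]
    exact ((((((measurable_id.sub measurable_const).norm).log.const_mul _).const_add _).mul_const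
      _).const_mul _).ennreal_ofReal
  · simp only [if_true]
    exact ((((((measurable_id.sub measurable_const).norm).log.const_mul _).const_add _).mul_const
      _).const_mul _).ennreal_ofReal

open Classical in
/-- numbers of crossings -/
theorem super_err (G : Geo) (hG : G.OK) {ν : Measure ℂ} (hν : RotStep ν G.h) (j : Fin G.J)
    (k : ℕ) (hk : 1 ≤ k) (hkK : k + 1 ≤ G.K) (u : ℝ) (hu : 0 < u)
    (hu1 : u * tt G k < tt G (k - 1)) :
    ∃ Pa, SuperC G ν Pa (fun m s => if j ∈ s.U then
      ENNReal.ofReal (u ^ (s.cnt j k) * (1 - c1 G k u * sr G) ^ m) else 0) := by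
  obtain ⟨αo, αi, b, hc0, hb0, hg0, h3a, h3b, hin, hout, hfar, hnear⟩ :=
    CC_num hG k hk hkK u hu hu1
  have hρ := CB_ρpos hG
  have hh := hG.hpos
  have hhρ := hG.hρ
  obtain ⟨hrρ, hr⟩ := CB_rρ hG
  have hbig := hG.big
  have hRk := CB_Rpos hG k (by omega)
  have hRk1 := CB_Rpos hG (k - 1) (by omega)
  have hdec := hG.dec (k - 1) (by omega)
  rw [Nat.sub_add_cancel hk] at hdec
  have hRle := CC_Rle hG (k - 1) (by omega)
  have hR4 := CB_R hG k hk (by omega)
  set c := c1 G k u with hc
  set g := 1 - c * sr G with hg
  have hgm : ∀ m : ℕ, 0 ≤ g ^ m := fun m => pow_nonneg hg0 m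
  have hum : ∀ m : ℕ, 0 ≤ u ^ m := fun m => pow_nonneg hu.le m
  refine ⟨fun m z s => if j ∈ s.U then
    ENNReal.ofReal (CC_val u αo c αi b g (s.cnt j k) (s.st j k) m ‖z - G.x j‖) else 0,
    ?_, ?_, ?_, ?_⟩
  · intro m s
    by_cases hj : j ∈ s.U
    · cases hst : s.st j k
      · have h1 : (fun z => if j ∈ (updH G z s).U then
            ENNReal.ofReal (CC_val u αo c αi b g ((updH G z s).cnt j k) ((updH G z s).st j k) m
              ‖z - G.x j‖) else 0) =
            fun z => if G.ρ < ‖z - G.x j‖ then
              (if ‖z - G.x j‖ ≤ G.R k then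
                ENNReal.ofReal (CC_val u αo c αi b g (s.cnt j k + 1) true m ‖z - G.x j‖)
              else ENNReal.ofReal (CC_val u αo c αi b g (s.cnt j k) false m ‖z - G.x j‖)) else 0 := by
          funext z
          simp only [CB_mem, hj, true_and]
          unfold updH
          simp only [hst, true_and, Bool.false_eq_true, if_false]
          by_cases h2 : ‖z - G.x j‖ ≤ G.R k
          · simp only [h2, if_true, decide_true]
          · simp only [h2, if_false, decide_false]
        rw [h1]
        refine Measurable.ite (measurableSet_lt measurable_const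
          ((measurable_id.sub measurable_const).norm)) ?_ measurable_const
        exact Measurable.ite (measurableSet_le ((measurable_id.sub measurable_const).norm)
          measurable_const) (CC_val_meas _ _ _ _ _ _ _ _ _ _) (CC_val_meas _ _ _ _ _ _ _ _ _ _)
      · have h1 : (fun z => if j ∈ (updH G z s).U then
            ENNReal.ofReal (CC_val u αo c αi b g ((updH G z s).cnt j k) ((updH G z s).st j k) m
              ‖z - G.x j‖) else 0) =
            fun z => if G.ρ < ‖z - G.x j‖ then
              (if ‖z - G.x j‖ < G.R (k - 1) then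
                ENNReal.ofReal (CC_val u αo c αi b g (s.cnt j k) true m ‖z - G.x j‖)
              else ENNReal.ofReal (CC_val u αo c αi b g (s.cnt j k) false m ‖z - G.x j‖)) else 0 := by
          funext z
          simp only [CB_mem, hj, true_and]
          unfold updH
          simp only [hst, Bool.true_eq_false, false_and, if_false, if_true]
          by_cases h2 : ‖z - G.x j‖ < G.R (k - 1)
          · simp only [h2, if_true, decide_true]
          · simp only [h2, if_false, decide_false]
        rw [h1]
        refine Measurable.ite (measurableSet_lt measurable_const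
          ((measurable_id.sub measurable_const).norm)) ?_ measurable_const
        exact Measurable.ite (measurableSet_lt ((measurable_id.sub measurable_const).norm)
          measurable_const) (CC_val_meas _ _ _ _ _ _ _ _ _ _) (CC_val_meas _ _ _ _ _ _ _ _ _ _)
    · have h1 : (fun z => if j ∈ (updH G z s).U then
            ENNReal.ofReal (CC_val u αo c αi b g ((updH G z s).cnt j k) ((updH G z s).st j k) m
              ‖z - G.x j‖) else 0) = fun _ => 0 := by
        funext z
        simp only [CB_mem, hj, false_and, if_false]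
      rw [h1]
      exact measurable_const
  · intro m z s hz hv
    by_cases hj : j ∈ s.U
    · rw [if_pos hj]
      have hw : G.ρ < ‖z - G.x j‖ := hv.1 j hj
      have hw2 : 2 * G.h ≤ ‖z - G.x j‖ := by linarith
      have hn : ∀ y : ℂ, ‖y‖ < G.h → ‖z - G.x j‖ - G.h < ‖z - G.x j + y‖ := by
        intro y hy
        have h3 := norm_sub_le_norm_add (z - G.x j) y
        linarith
      have hn' : ∀ y : ℂ, ‖y‖ < G.h → ‖z - G.x j + y‖ < ‖z - G.x j‖ + G.h := by
        intro y hy
        have h3 := norm_add_le (z - G.x j) y
        linarith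
      have e1 : ∀ y : ℂ, z + y - G.x j = z - G.x j + y := fun y => by ring
      cases hst : s.st j k
      · have hRw : G.R k < ‖z - G.x j‖ := (hv.2 j k hk (by omega)).2 hst
        have e2 : CC_val u αo c αi b g (s.cnt j k) false m ‖z - G.x j‖ =
            u ^ s.cnt j k * αo * g ^ m + (u ^ s.cnt j k * c * g ^ m) * Real.log ‖z - G.x j‖ := by
          unfold CC_val
          simp only [Bool.false_eq_true, if_false]
          ring
        rw [e2, ← CB_up hν hh (z - G.x j) hw2]
        · refine lintegral_mono_ae ?_
          filter_upwards [hν.bdd] with y hy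
          by_cases hm : j ∈ (updH G (z + y) s).U
          · rw [if_pos hm]
            apply ENNReal.ofReal_le_ofReal
            have hlow : G.R k - G.h < ‖z - G.x j + y‖ := by
              have := hn y hy
              linarith
            have e3 : u ^ s.cnt j k * αo * g ^ m +
                (u ^ s.cnt j k * c * g ^ m) * Real.log ‖z - G.x j + y‖ =
                u ^ s.cnt j k * ((αo + c * Real.log ‖z - G.x j + y‖) * g ^ m) := by ring
            rw [e3]
            unfold updH CC_val
            simp only [hst, true_and, Bool.false_eq_true, if_false, e1]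
            by_cases h2 : ‖z - G.x j + y‖ ≤ G.R k
            · simp only [h2, if_true, decide_true]
              rw [pow_succ, mul_assoc]
              refine mul_le_mul_of_nonneg_left ?_ (hum _)
              rw [← mul_assoc]
              exact mul_le_mul_of_nonneg_right (h3a _ hlow h2) (hgm m)
            · simp only [h2, if_false, decide_false, Bool.false_eq_true]
              exact le_refl _
          · rw [if_neg hm]
            exact bot_le
        · filter_upwards [hν.bdd] with y hy
          have e3 : u ^ s.cnt j k * αo * g ^ m +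
                (u ^ s.cnt j k * c * g ^ m) * Real.log ‖z - G.x j + y‖ =
                u ^ s.cnt j k * ((αo + c * Real.log ‖z - G.x j + y‖) * g ^ m) := by ring
          rw [e3]
          refine mul_nonneg (hum _) (mul_nonneg (hout _ ?_) (hgm m))
          have := hn y hy
          linarith
      · have hRw : ‖z - G.x j‖ < G.R (k - 1) := (hv.2 j k hk (by omega)).1 hst
        have e2 : CC_val u αo c αi b g (s.cnt j k) true m ‖z - G.x j‖ =
            u ^ s.cnt j k * αi * g ^ m + (u ^ s.cnt j k * b * g ^ m) * Real.log ‖z - G.x j‖ := by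
          unfold CC_val
          simp only [if_true]
          ring
        rw [e2, ← CB_up hν hh (z - G.x j) hw2]
        · refine lintegral_mono_ae ?_
          filter_upwards [hν.bdd] with y hy
          by_cases hm : j ∈ (updH G (z + y) s).U
          · rw [if_pos hm]
            apply ENNReal.ofReal_le_ofReal
            have hup : ‖z - G.x j + y‖ < G.R (k - 1) + G.h := by
              have := hn' y hy
              linarith
            have e3 : u ^ s.cnt j k * αi * g ^ m +
                (u ^ s.cnt j k * b * g ^ m) * Real.log ‖z - G.x j + y‖ =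
                u ^ s.cnt j k * ((αi + b * Real.log ‖z - G.x j + y‖) * g ^ m) := by ring
            rw [e3]
            unfold updH CC_val
            simp only [hst, Bool.true_eq_false, false_and, if_false, if_true, e1]
            by_cases h2 : ‖z - G.x j + y‖ < G.R (k - 1)
            · simp only [h2, if_true, decide_true]
              exact le_refl _
            · simp only [h2, if_false, decide_false, Bool.false_eq_true]
              refine mul_le_mul_of_nonneg_left ?_ (hum _)
              exact mul_le_mul_of_nonneg_right (h3b _ (not_lt.1 h2) hup) (hgm m)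
          · rw [if_neg hm]
            exact bot_le
        · filter_upwards [hν.bdd] with y hy
          have e3 : u ^ s.cnt j k * αi * g ^ m +
                (u ^ s.cnt j k * b * g ^ m) * Real.log ‖z - G.x j + y‖ =
                u ^ s.cnt j k * ((αi + b * Real.log ‖z - G.x j + y‖) * g ^ m) := by ring
          rw [e3]
          refine mul_nonneg (hum _) (mul_nonneg (hin _ ?_) (hgm m))
          have := hn y hy
          linarith
    · have h1 : ∀ y : ℂ, (if j ∈ (updH G (z + y) s).U then
            ENNReal.ofReal (CC_val u αo c αi b g ((updH G (z + y) s).cnt j k)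
              ((updH G (z + y) s).st j k) m ‖z + y - G.x j‖) else 0) = 0 := by
        intro y
        simp only [CB_mem, hj, false_and, if_false]
      simp only [h1, lintegral_zero]
      exact bot_le
  · intro m z s hz1 hz2
    by_cases hm : j ∈ (updH G z s).U
    · simp only [if_pos hm]
      apply ENNReal.ofReal_le_ofReal
      have h1 := CB_le_norm hG j z
      have h2 : G.R' - G.r ≤ ‖z - G.x j‖ := by linarith
      have hst : (updH G z s).st j k = false := by
        unfold updH
        simp only
        split_ifs with h3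
        · rw [decide_eq_false_iff_not]
          linarith
        · rw [decide_eq_false_iff_not]
          linarith
      rw [hst]
      unfold CC_val
      simp only [Bool.false_eq_true, if_false]
      refine mul_le_mul_of_nonneg_left ?_ (hum _)
      calc g ^ m = 1 * g ^ m := (one_mul _).symm
        _ ≤ _ := mul_le_mul_of_nonneg_right (hfar _ h2) (hgm m)
    · simp only [if_neg hm]
      exact le_refl _
  · intro m z s hidle hz1 hz2
    by_cases hj : j ∈ s.U
    · have h1 := CB_le_norm hG j z
      have h1' := CB_norm_le hG j z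
      have hst0 := hidle j k hk (by omega)
      have h2 : ¬ ‖z - G.x j‖ ≤ G.R k := by linarith
      have hm : j ∈ (updH G z s).U := by
        rw [CB_mem]
        exact ⟨hj, by linarith⟩
      have hst : (updH G z s).st j k = false := by
        unfold updH
        simp only [hst0, Bool.false_eq_true, if_false]
        rw [decide_eq_false_iff_not]
        exact h2
      have hcnt : (updH G z s).cnt j k = s.cnt j k := by
        unfold updH
        simp only [hst0, true_and, if_neg h2]
      simp only [if_pos hj, if_pos hm]
      rw [hst, hcnt]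
      apply ENNReal.ofReal_le_ofReal
      unfold CC_val
      simp only [Bool.false_eq_true, if_false]
      refine mul_le_mul_of_nonneg_left ?_ (hum _)
      rw [pow_succ, mul_comm (g ^ m)]
      exact mul_le_mul_of_nonneg_right (hnear _ (by linarith) (by linarith)) (hgm m)
    · have hm : ¬ j ∈ (updH G z s).U := by
        rw [CB_mem]
        exact fun h => hj h.1
      simp only [if_neg hj, if_neg hm]
      exact le_refl _

end Pool.Agent.helper32.EB
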